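import Pool.Agent.helper11.Tight.Defs

set_option linter.all false

/-! mod:T9 of MP_ce98d8_co: the product graph -/

namespace Pool.Agent.helper11.Tight

open Finset

theorem T9_aux1 {X Y : Type*} [Fintype X] [DecidableEq X] [Fintype Y] [DecidableEq Y]
    {H1 : SimpleGraph X} {H2 : SimpleGraph Y} {d1 : ℕ} (h1 : Base H1 d1) {a b c : X × Y}
    (hab : H1.Adj a.1 b.1) (hac : H1.Adj a.1 c.1)
    (hbc : (H1.Adj b.1 c.1 ∧ ¬ Q H2 b.2 c.2) ∨ (H2.Adj b.2 c.2 ∧ ¬ Q H1 b.1 c.1)) : False := by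
  rcases hbc with h | h
  · exact h1.tri _ _ _ hab.symm hac h.1
  · exact h.2 (Or.inr ⟨a.1, hab.symm, hac.symm⟩)

theorem T9_aux2 {X Y : Type*} [Fintype X] [DecidableEq X] [Fintype Y] [DecidableEq Y]
    {H1 : SimpleGraph X} {H2 : SimpleGraph Y} {d2 : ℕ} (h2 : Base H2 d2) {a b c : X × Y}
    (hab : H2.Adj a.2 b.2) (hac : H2.Adj a.2 c.2)
    (hbc : (H1.Adj b.1 c.1 ∧ ¬ Q H2 b.2 c.2) ∨ (H2.Adj b.2 c.2 ∧ ¬ Q H1 b.1 c.1)) : False := by
  rcases hbc with h | h
  · exact h.2 (Or.inr ⟨a.2, hab.symm, hac.symm⟩)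
  · exact h2.tri _ _ _ hab.symm hac h.1

variable {X Y : Type*} [Fintype X] [DecidableEq X] [Fintype Y] [DecidableEq Y]

theorem prodG_tri {H1 : SimpleGraph X} {H2 : SimpleGraph Y} {d1 d2 : ℕ} (h1 : Base H1 d1)
    (h2 : Base H2 d2) (p q r : X × Y) (hpq : (prodG H1 H2).Adj p q)
    (hqr : (prodG H1 H2).Adj q r) : ¬ (prodG H1 H2).Adj p r := by
  intro hpr
  have hpq' := hpq
  have hqr' := hqr
  have hpr' := hpr
  have hqp := hpq.symm
  rcases hpq' with a | a <;> rcases hqr' with b | b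
  · exact T9_aux1 h1 a.1.symm b.1 hpr
  · rcases hpr' with c | c
    · exact T9_aux1 h1 a.1 c.1 hqr
    · exact T9_aux2 h2 b.1.symm c.1.symm hqp
  · rcases hpr' with c | c
    · exact T9_aux1 h1 b.1.symm c.1.symm hqp
    · exact T9_aux2 h2 a.1 c.1 hqr
  · exact T9_aux2 h2 a.1.symm b.1 hpr

variable {V : Type*} [Fintype V] [DecidableEq V]

open Classical in
theorem Q_card {H : SimpleGraph V} {d : ℕ} (h : Base H d) (v : V) :
    (Finset.univ.filter (fun w => Q H v w)).card = 1 + d * (d - 1) := by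
  have e : (Finset.univ.filter (fun w => Q H v w)) =
      insert v ((nb H v).biUnion (fun u => (nb H u).erase v)) := by
    ext w
    simp only [mem_filter, mem_univ, true_and, mem_insert, mem_biUnion, mem_erase, mem_nb, Q]
    constructor
    · rintro (h | ⟨u, h, h'⟩)
      · exact Or.inl h.symm
      · by_cases hw : w = v
        · exact Or.inl hw
        · exact Or.inr ⟨u, h, hw, h'.symm⟩
    · rintro (h | ⟨u, h, hw, h'⟩)
      · exact Or.inl h.symm
      · exact Or.inr ⟨u, h, h'.symm⟩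
  rw [e, card_insert_of_notMem, card_biUnion]
  · rw [Finset.sum_congr rfl (g := fun _ => d - 1)]
    · simp [h.reg v]; ring
    · intro u hu
      rw [card_erase_of_mem, h.reg u]
      simp only [mem_nb] at hu ⊢
      exact hu.symm
  · intro u hu u' hu' hne
    rw [Function.onFun, Finset.disjoint_left]
    intro w hw hw'
    simp only [mem_erase, mem_nb, Finset.mem_coe] at hw hw' hu hu'
    exact hne (h.c4 v w u u' (Ne.symm hw.1) hu hw.2.symm hu' hw'.2.symm)
  · simp

theorem prodG_reg {H1 : SimpleGraph X} {H2 : SimpleGraph Y} {d1 d2 m1 r2 : ℕ} (h1 : Base H1 d1)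
    (h2 : Base H2 d2) (hX : Fintype.card X = 1 + d1 * (d1 - 1) + d1 + m1)
    (hY : Fintype.card Y = 1 + d2 * (d2 - 1) + r2) (p : X × Y) :
    (nb (prodG H1 H2) p).card = d1 * r2 + d2 * m1 := by
  classical
  have c1 : (Finset.univ.filter (fun w => ¬ Q H1 p.1 w)).card = d1 + m1 := by
    have := Finset.card_filter_add_card_filter_not (s := (Finset.univ : Finset X))
      (fun w => Q H1 p.1 w)
    rw [Q_card h1, Finset.card_univ, hX] at this
    omega
  have c2 : (Finset.univ.filter (fun w => ¬ Q H2 p.2 w)).card = r2 := by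
    have := Finset.card_filter_add_card_filter_not (s := (Finset.univ : Finset Y))
      (fun w => Q H2 p.2 w)
    rw [Q_card h2, Finset.card_univ, hY] at this
    omega
  have e : nb (prodG H1 H2) p = ((nb H1 p.1) ×ˢ (Finset.univ.filter (fun w => ¬ Q H2 p.2 w))) ∪
      ((Finset.univ.filter (fun w => ¬ Q H1 p.1 w)) ×ˢ (nb H2 p.2)) := by
    ext q
    simp only [mem_nb, mem_union, mem_product, mem_filter, mem_univ, true_and]
    show ((H1.Adj p.1 q.1 ∧ ¬ Q H2 p.2 q.2) ∨ (H2.Adj p.2 q.2 ∧ ¬ Q H1 p.1 q.1)) ↔ _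
    tauto
  have e' : ((nb H1 p.1) ×ˢ (Finset.univ.filter (fun w => ¬ Q H2 p.2 w))) ∩
      ((Finset.univ.filter (fun w => ¬ Q H1 p.1 w)) ×ˢ (nb H2 p.2)) =
      (nb H1 p.1) ×ˢ (nb H2 p.2) := by
    ext q
    simp only [mem_nb, mem_inter, mem_product, mem_filter, mem_univ, true_and]
    constructor
    · rintro ⟨⟨a, b⟩, c, d⟩
      exact ⟨a, d⟩
    · rintro ⟨a, b⟩
      refine ⟨⟨a, ?_⟩, ?_, b⟩
      · rintro (hh | ⟨w, hw, hw'⟩)
        · rw [hh] at b
          exact H2.loopless.irrefl _ b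
        · exact h2.tri _ _ _ hw hw'.symm b
      · rintro (hh | ⟨w, hw, hw'⟩)
        · rw [hh] at a
          exact H1.loopless.irrefl _ a
        · exact h1.tri _ _ _ hw hw'.symm a
  have key := Finset.card_union_add_card_inter
    ((nb H1 p.1) ×ˢ (Finset.univ.filter (fun w => ¬ Q H2 p.2 w)))
    ((Finset.univ.filter (fun w => ¬ Q H1 p.1 w)) ×ˢ (nb H2 p.2))
  rw [← e, e', card_product, card_product, card_product, c1, c2, h1.reg, h2.reg] at key
  nlinarith [key]

end Pool.Agent.helper11.Tight
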