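import Pool.Agent.helper11.Tight.Defs

set_option linter.all false

/-! mod:T7 of MP_ce98d8_co: the family is nonempty -/

namespace Pool.Agent.helper11.Tight

open Finset

/-- the incidence graph of points and lines of small slope and abscissa -/
def incG (d q : ℕ) : SimpleGraph (Bool × Fin d × ZMod q) :=
  SimpleGraph.fromRel (fun u v => u.1 = false ∧ v.1 = true ∧
    u.2.2 = ((v.2.1 : ℕ) : ZMod q) * ((u.2.1 : ℕ) : ZMod q) + v.2.2)

theorem incG_adj {d q : ℕ} (u v : Bool × Fin d × ZMod q) : (incG d q).Adj u v ↔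
    (u.1 = false ∧ v.1 = true ∧
      u.2.2 = ((v.2.1 : ℕ) : ZMod q) * ((u.2.1 : ℕ) : ZMod q) + v.2.2) ∨
    (v.1 = false ∧ u.1 = true ∧
      v.2.2 = ((u.2.1 : ℕ) : ZMod q) * ((v.2.1 : ℕ) : ZMod q) + u.2.2) := by
  unfold incG
  rw [SimpleGraph.fromRel_adj]
  constructor
  · rintro ⟨h, h'⟩
    exact h'
  · intro h
    refine ⟨?_, h⟩
    rintro rfl
    rcases h with h | h
    · rw [h.1] at h; simp at h
    · rw [h.1] at h; simp at h

theorem incG_key {d q : ℕ} (hq : d * d ≤ q) (x x' m m' : Fin d) (y y' b b' : ZMod q)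
    (h1 : y = ((m : ℕ) : ZMod q) * ((x : ℕ) : ZMod q) + b)
    (h2 : y' = ((m : ℕ) : ZMod q) * ((x' : ℕ) : ZMod q) + b)
    (h3 : y = ((m' : ℕ) : ZMod q) * ((x : ℕ) : ZMod q) + b')
    (h4 : y' = ((m' : ℕ) : ZMod q) * ((x' : ℕ) : ZMod q) + b') :
    (m = m' ∧ b = b') ∨ (x = x' ∧ y = y') := by
  have key : (((((m : ℕ) : ℤ) - ((m' : ℕ) : ℤ)) * (((x : ℕ) : ℤ) - ((x' : ℕ) : ℤ)) : ℤ) : ZMod q)
      = 0 := by
    push_cast
    linear_combination (-1) * h1 + h2 + h3 - h4
  rw [ZMod.intCast_zmod_eq_zero_iff_dvd] at key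
  have hm := m.2
  have hm' := m'.2
  have hx := x.2
  have hx' := x'.2
  have habs : |(((m : ℕ) : ℤ) - ((m' : ℕ) : ℤ)) * (((x : ℕ) : ℤ) - ((x' : ℕ) : ℤ))| < (q : ℤ) := by
    rw [abs_mul]
    have a1 : |((m : ℕ) : ℤ) - ((m' : ℕ) : ℤ)| < d := by
      rw [abs_lt]; constructor <;> omega
    have a2 : |((x : ℕ) : ℤ) - ((x' : ℕ) : ℤ)| < d := by
      rw [abs_lt]; constructor <;> omega
    calc _ < (d : ℤ) * d := by
          apply mul_lt_mul'' a1 a2 (abs_nonneg _) (abs_nonneg _)
      _ ≤ q := by exact_mod_cast hq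
  have h0 := Int.eq_zero_of_abs_lt_dvd key habs
  rcases mul_eq_zero.mp h0 with h | h
  · left
    have : m = m' := by
      apply Fin.ext; omega
    subst this
    refine ⟨rfl, ?_⟩
    have := h1.symm.trans h3
    exact add_left_cancel this
  · right
    have : x = x' := by
      apply Fin.ext; omega
    subst this
    exact ⟨rfl, h1.trans h2.symm⟩

theorem incG_base {d q : ℕ} [NeZero q] (hq : d * d ≤ q) : Base (incG d q) d := by
  classical
  constructor
  · rintro ⟨s, x, y⟩
    cases s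
    · have : nb (incG d q) (false, x, y) = (Finset.univ : Finset (Fin d)).image
          (fun m : Fin d => (true, m, y - ((m : ℕ) : ZMod q) * ((x : ℕ) : ZMod q))) := by
        ext ⟨t, m, b⟩
        rw [mem_nb, incG_adj, mem_image]
        constructor
        · rintro (⟨_, h, h'⟩ | ⟨_, h2, _⟩)
          · simp only at h h'
            subst h
            refine ⟨m, mem_univ _, ?_⟩
            rw [h']
            simp
          · exact absurd h2 (by simp)
        · rintro ⟨m', _, h⟩
          simp only [Prod.mk.injEq] at h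
          obtain ⟨rfl, rfl, rfl⟩ := h
          left
          exact ⟨rfl, rfl, by simp⟩
      rw [this, card_image_of_injective]
      · simp
      · intro m m' h
        simp only [Prod.mk.injEq] at h
        exact h.2.1
    · have : nb (incG d q) (true, x, y) = (Finset.univ : Finset (Fin d)).image
          (fun m : Fin d => (false, m, ((x : ℕ) : ZMod q) * ((m : ℕ) : ZMod q) + y)) := by
        ext ⟨t, m, b⟩
        rw [mem_nb, incG_adj, mem_image]
        constructor
        · rintro (⟨h2, _, _⟩ | ⟨h, _, h'⟩)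
          · exact absurd h2 (by simp)
          · simp only at h h'
            subst h
            refine ⟨m, mem_univ _, ?_⟩
            rw [h']
        · rintro ⟨m', _, h⟩
          simp only [Prod.mk.injEq] at h
          obtain ⟨rfl, rfl, rfl⟩ := h
          right
          exact ⟨rfl, rfl, by simp⟩
      rw [this, card_image_of_injective]
      · simp
      · intro m m' h
        simp only [Prod.mk.injEq] at h
        exact h.2.1
  · rintro ⟨s, x, y⟩ ⟨s', x', y'⟩ ⟨s'', x'', y''⟩ h1 h2 h3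
    rw [incG_adj] at h1 h2 h3
    simp only at h1 h2 h3
    cases s <;> cases s' <;> cases s'' <;> simp_all
  · rintro ⟨s, x, y⟩ ⟨s', x', y'⟩ ⟨t, m, b⟩ ⟨t', m', b'⟩ hne h1 h2 h3 h4
    rw [incG_adj] at h1 h2 h3 h4
    simp only at h1 h2 h3 h4
    rcases h1 with ⟨rfl, rfl, h1⟩ | ⟨rfl, rfl, h1⟩
    · rcases h2 with ⟨rfl, -, h2⟩ | ⟨h, -, h2⟩
      swap
      · simp at h
      rcases h3 with ⟨-, rfl, h3⟩ | ⟨-, h, h3⟩
      swap
      · simp at h
      rcases h4 with ⟨-, -, h4⟩ | ⟨h, -, h4⟩
      swap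
      · simp at h
      rcases incG_key hq x x' m m' y y' b b' h1 h2 h3 h4 with ⟨rfl, rfl⟩ | ⟨rfl, rfl⟩
      · rfl
      · exact absurd rfl hne
    · rcases h2 with ⟨-, h, h2⟩ | ⟨-, rfl, h2⟩
      · simp at h
      rcases h3 with ⟨h, -, h3⟩ | ⟨rfl, -, h3⟩
      · simp at h
      rcases h4 with ⟨h, -, h4⟩ | ⟨-, -, h4⟩
      · simp at h
      rcases incG_key hq m m' x x' b b' y y' h1 h3 h2 h4 with ⟨rfl, rfl⟩ | ⟨rfl, rfl⟩
      · exact absurd rfl hne
      · rfl

theorem base_comap {V W : Type*} [Fintype V] [DecidableEq V] [Fintype W] [DecidableEq W]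
    {H : SimpleGraph V} {d : ℕ} (h : Base H d) (e : W ≃ V) : Base (H.comap e) d := by
  classical
  constructor
  · intro v
    rw [← h.reg (e v)]
    apply Finset.card_bij (fun w _ => e w)
    · intro w hw
      simpa using hw
    · intro a _ b _ hab
      exact e.injective hab
    · intro b hb
      refine ⟨e.symm b, ?_, by simp⟩
      simpa using hb
  · intro a b c hab hbc hac
    exact h.tri (e a) (e b) (e c) hab hbc hac
  · intro u v w w' hne h1 h2 h3 h4
    exact e.injective (h.c4 (e u) (e v) (e w) (e w') (fun hh => hne (e.injective hh)) h1 h2 h3 h4)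

theorem fam_nonempty {A s c d M β : ℕ} (h : Par A s c d M β) : 0 < (fam M d).card := by
  classical
  have hs0 : s ≠ 0 := by
    rintro rfl
    have h1 := h.hs
    have h2 := h.hc
    simp at h2
    subst h2
    omega
  obtain ⟨s', rfl⟩ := Nat.exists_eq_succ_of_ne_zero hs0
  have hc : c = 2 * 2 ^ s' := by rw [h.hc, pow_succ]; ring
  set q : ℕ := c ^ (2 * A) * 2 ^ s' with hqd
  have hcpos : 0 < c := by rw [hc]; positivity
  have hqpos : 0 < q := by positivity
  haveI : NeZero q := ⟨hqpos.ne'⟩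
  have hdq : d * d ≤ q := by
    rw [h.hd, hqd]
    calc c ^ A * c ^ A = c ^ (2 * A) * 1 := by ring
      _ ≤ _ := Nat.mul_le_mul_left _ Nat.one_le_two_pow
  have hb := incG_base (d := d) (q := q) hdq
  have hcard : Fintype.card (Bool × Fin d × ZMod q) = M := by
    rw [Fintype.card_prod, Fintype.card_prod, Fintype.card_bool, Fintype.card_fin, ZMod.card,
      h.hM, hqd, h.hd]
    have : c ^ (3 * A + 1) = c * c ^ A * c ^ (2 * A) := by ring
    rw [this]
    nth_rewrite 3 [hc]
    ring
  have e : Fin M ≃ Bool × Fin d × ZMod q := (Fintype.equivFinOfCardEq hcard).symm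
  rw [Finset.card_pos]
  exact ⟨(incG d q).comap e, by rw [mem_fam]; exact base_comap hb e⟩

end Pool.Agent.helper11.Tight
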